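import Mathlib

/-!
From a cubic multigraph with a 2-factor consisting of two circuits to a pair of permutations, and
from an admissible colouring with four colours back to four perfect matchings.
-/

set_option autoImplicit false

namespace Pool.Agent.Lib.MP_239067_co.TwoCirc

open Finset

/-- Admissible colouring: `c v` is the colour of the edge from `v` to `σ v`. -/
def Adm {V : Type*} (σ τ : Equiv.Perm V) (c : V → Fin 4) : Prop :=
  ∀ v, c (σ⁻¹ v) ≠ c v ∧ ((c (σ⁻¹ v) = c (σ⁻¹ (τ v)) ∧ c v = c (τ v)) ∨
    (c (σ⁻¹ v) = c (τ v) ∧ c v = c (σ⁻¹ (τ v))))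

/-- The core statement: two circuits joined by `3 mod 4` edges have an admissible colouring. -/
def Core : Prop := ∀ (n : ℕ) (σ τ : Equiv.Perm (Fin n)), (∀ v, τ (τ v) = v) → (∀ v, τ v ≠ v) →
  ∀ A : Finset (Fin n), (∀ v, σ v ∈ A ↔ v ∈ A) → (∀ x ∈ A, ∀ y ∈ A, σ.SameCycle x y) →
  (∀ x, x ∉ A → ∀ y, y ∉ A → σ.SameCycle x y) →
  (univ.filter (fun v => v ∈ A ∧ τ v ∉ A)).card % 4 = 3 → ∃ c : Fin n → Fin 4, Adm σ τ c

section

variable {n m : ℕ} (s t : Fin m → Fin n)

/-- Incidence. -/
def Inc (e : Fin m) (v : Fin n) : Prop := s e = v ∨ t e = v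

instance (e : Fin m) (v : Fin n) : Decidable (Inc s t e v) := by unfold Inc; infer_instance

/-- The other end. -/
def oth (e : Fin m) (v : Fin n) : Fin n := if s e = v then t e else s e

variable {s t}

theorem inc_oth {e : Fin m} {v : Fin n} (_h : Inc s t e v) : Inc s t e (oth s t e v) := by
  unfold Inc oth
  split_ifs with h
  · right; rfl
  · left; rfl

theorem oth_oth (hl : ∀ e, s e ≠ t e) {e : Fin m} {v : Fin n} (h : Inc s t e v) :
    oth s t e (oth s t e v) = v := by
  unfold oth
  rcases h with h | h
  · have h' : s e ≠ t e := hl e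
    rw [if_pos h, if_neg h']
    exact h
  · have h' : s e ≠ v := by rw [← h]; exact hl e
    rw [if_neg h', if_pos rfl]
    exact h

theorem oth_ne (hl : ∀ e, s e ≠ t e) {e : Fin m} {v : Fin n} (h : Inc s t e v) :
    oth s t e v ≠ v := by
  unfold oth
  rcases h with h | h
  · rw [if_pos h, ← h]; exact (hl e).symm
  · have h' : s e ≠ v := by rw [← h]; exact hl e
    rw [if_neg h']; exact h'

theorem inc_iff {e : Fin m} {v u : Fin n} (h : Inc s t e v) :
    Inc s t e u ↔ u = v ∨ u = oth s t e v := by
  unfold oth
  unfold Inc at h ⊢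
  split_ifs with hs
  · constructor
    · rintro (h1 | h1)
      · left; rw [← h1, hs]
      · right; exact h1.symm
    · rintro (h1 | h1)
      · left; rw [hs, h1]
      · right; exact h1.symm
  · have ht : t e = v := by rcases h with h | h; exact absurd h hs; exact h
    constructor
    · rintro (h1 | h1)
      · right; exact h1.symm
      · left; rw [← h1, ht]
    · rintro (h1 | h1)
      · right; rw [ht, h1]
      · left; exact h1.symm

/-- The set of vertices of an edge has two elements. -/
theorem card_ends (hl : ∀ e, s e ≠ t e) (e : Fin m) :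
    (univ.filter (fun v => Inc s t e v)).card = 2 := by
  have : univ.filter (fun v => Inc s t e v) = {s e, t e} := by
    ext v
    simp only [mem_filter, mem_univ, true_and, mem_insert, mem_singleton]
    unfold Inc
    constructor
    · rintro (h | h)
      · left; exact h.symm
      · right; exact h.symm
    · rintro (h | h)
      · left; exact h.symm
      · right; exact h.symm
  rw [this, card_pair (hl e)]

theorem card_inc (hl : ∀ e, s e ≠ t e)
    (hc : ∀ v : Fin n, (univ.filter (fun e => s e = v)).card
      + (univ.filter (fun e => t e = v)).card = 3) (v : Fin n) :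
    (univ.filter (fun e => Inc s t e v)).card = 3 := by
  have : univ.filter (fun e => Inc s t e v) =
      univ.filter (fun e => s e = v) ∪ univ.filter (fun e => t e = v) := by
    ext e
    simp only [mem_filter, mem_univ, true_and, mem_union]
    rfl
  rw [this, card_union_of_disjoint, hc v]
  rw [disjoint_left]
  intro e h1 h2
  simp only [mem_filter, mem_univ, true_and] at h1 h2
  exact hl e (h1.trans h2.symm)

/-- A choice of an outgoing edge of the 2-factor at every vertex. -/
theorem exists_out (hl : ∀ e, s e ≠ t e) (F : Finset (Fin m))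
    (hF : ∀ v, (F.filter (fun e => Inc s t e v)).card = 2) :
    ∃ f : Fin n → Fin m, Function.Injective f ∧ ∀ v, f v ∈ F ∧ Inc s t (f v) v := by
  have key := (Finset.all_card_le_biUnion_card_iff_exists_injective
    (fun v : Fin n => F.filter (fun e => Inc s t e v))).1 (by
      intro S
      have h := Finset.card_mul_le_card_mul (s := S)
        (t := S.biUnion (fun v => F.filter (fun e => Inc s t e v)))
        (fun v e => Inc s t e v) (m := 2) (n := 2) (by
          intro v hv
          rw [← hF v]
          apply card_le_card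
          intro e he
          rw [mem_bipartiteAbove]
          refine ⟨mem_biUnion.2 ⟨v, hv, he⟩, (mem_filter.1 he).2⟩) (by
          intro e _
          rw [← card_ends hl e]
          apply card_le_card
          intro v hv
          rw [mem_bipartiteBelow] at hv
          exact mem_filter.2 ⟨mem_univ _, hv.2⟩)
      omega)
  obtain ⟨f, hf, hf'⟩ := key
  exact ⟨f, hf, fun v => by simpa using hf' v⟩

theorem card_F (hl : ∀ e, s e ≠ t e) (F : Finset (Fin m))
    (hF : ∀ v, (F.filter (fun e => Inc s t e v)).card = 2) : F.card = n := by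
  have h := Finset.sum_card_bipartiteAbove_eq_sum_card_bipartiteBelow
    (s := (univ : Finset (Fin n))) (t := F) (fun v e => Inc s t e v)
  have h1 : ∑ v ∈ (univ : Finset (Fin n)), (F.bipartiteAbove (fun v e => Inc s t e v) v).card
      = ∑ v ∈ (univ : Finset (Fin n)), 2 := sum_congr rfl (fun v _ => hF v)
  have h2 : ∑ e ∈ F, ((univ : Finset (Fin n)).bipartiteBelow (fun v e => Inc s t e v) e).card
      = ∑ e ∈ F, 2 := sum_congr rfl (fun e _ => card_ends hl e)
  rw [h1, h2] at h
  simp only [sum_const, card_univ, Fintype.card_fin, smul_eq_mul] at h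
  omega

end

theorem two_missing : ∀ a b : Fin 4, a ≠ b →
    (univ.filter (fun i : Fin 4 => a ≠ i ∧ b ≠ i)).card = 2 := by decide

/-- From the core statement to multigraphs. -/
theorem main (core : Core) {n m : ℕ} (s t : Fin m → Fin n) (hl : ∀ e, s e ≠ t e)
    (hc : ∀ v : Fin n, (univ.filter (fun e => s e = v)).card
      + (univ.filter (fun e => t e = v)).card = 3)
    (F : Finset (Fin m)) (hF : ∀ v, (F.filter (fun e => s e = v ∨ t e = v)).card = 2)
    (A : Finset (Fin n)) (hA : ∀ e ∈ F, s e ∈ A ↔ t e ∈ A)
    (h1 : ∀ X ⊆ A, X.Nonempty → (∀ e ∈ F, s e ∈ X ↔ t e ∈ X) → X = A)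
    (h2 : ∀ X ⊆ Aᶜ, X.Nonempty → (∀ e ∈ F, s e ∈ X ↔ t e ∈ X) → X = Aᶜ)
    (hr : (univ.filter (fun e => ¬ (s e ∈ A ↔ t e ∈ A))).card % 4 = 3) :
    ∃ M : Fin 4 → Finset (Fin m),
      (∀ (i : Fin 4) (v : Fin n), ((M i).filter (fun e => s e = v ∨ t e = v)).card = 1) ∧
      (∀ e ∈ F, (univ.filter (fun i => e ∈ M i)).card = 1) ∧
      (∀ e, e ∉ F → (univ.filter (fun i => e ∈ M i)).card = 2) := by
  classical
  have hF' : ∀ v, (F.filter (fun e => Inc s t e v)).card = 2 := hF
  obtain ⟨f, finj, hf⟩ := exists_out hl F hF'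
  have fF : ∀ v, f v ∈ F := fun v => (hf v).1
  have fI : ∀ v, Inc s t (f v) v := fun v => (hf v).2
  have fsurj : ∀ e ∈ F, ∃ v, f v = e := by
    have him : univ.image f = F := by
      apply eq_of_subset_of_card_le
      · intro e he
        obtain ⟨v, _, rfl⟩ := mem_image.1 he
        exact fF v
      · rw [card_image_of_injective _ finj, card_F hl F hF', card_univ, Fintype.card_fin]
    intro e he
    rw [← him] at he
    obtain ⟨v, _, hv⟩ := mem_image.1 he
    exact ⟨v, hv⟩
  -- the successor
  have σinj : Function.Injective (fun v => oth s t (f v) v) := by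
    intro u v huv
    by_contra hne
    set y := oth s t (f v) v with hy
    have huv' : oth s t (f u) u = y := huv
    have i1 : Inc s t (f u) y := huv' ▸ inc_oth (fI u)
    have i2 : Inc s t (f v) y := inc_oth (fI v)
    have n1 : y ≠ u := huv' ▸ oth_ne hl (fI u)
    have n2 : y ≠ v := oth_ne hl (fI v)
    have hsub : ({f y, f u, f v} : Finset (Fin m)) ⊆ F.filter (fun e => Inc s t e y) := by
      intro e he
      simp only [mem_insert, mem_singleton] at he
      rcases he with rfl | rfl | rfl
      · exact mem_filter.2 ⟨fF y, fI y⟩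
      · exact mem_filter.2 ⟨fF u, i1⟩
      · exact mem_filter.2 ⟨fF v, i2⟩
    have hcard := card_le_card hsub
    rw [hF' y, card_insert_of_notMem, card_insert_of_notMem, card_singleton] at hcard
    · omega
    · simp only [mem_singleton]; exact fun h => hne (finj h)
    · simp only [mem_insert, mem_singleton, not_or]
      exact ⟨fun h => n1 (finj h), fun h => n2 (finj h)⟩
  let σ : Equiv.Perm (Fin n) := Equiv.ofBijective _ (Finite.injective_iff_bijective.1 σinj)
  have σdef : ∀ v, σ v = oth s t (f v) v := fun v => rfl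
  -- the edge outside F
  have hg : ∀ v, ∃ e, e ∉ F ∧ Inc s t e v ∧ ∀ e', e' ∉ F → Inc s t e' v → e' = e := by
    intro v
    have hcard : ((univ.filter (fun e => Inc s t e v)).filter (fun e => e ∉ F)).card = 1 := by
      have h3 := card_inc hl hc v
      have hsplit := Finset.card_filter_add_card_filter_not (s := univ.filter (fun e => Inc s t e v))
        (p := fun e => e ∈ F)
      have h4 : ((univ.filter (fun e => Inc s t e v)).filter (fun e => e ∈ F)).card = 2 := by
        rw [← hF' v]
        congr 1
        ext e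
        simp only [mem_filter, mem_univ, true_and]
        exact and_comm
      omega
    obtain ⟨e, he⟩ := card_eq_one.1 hcard
    have hmem : ∀ e', (e' ∉ F ∧ Inc s t e' v) ↔ e' = e := by
      intro e'
      rw [← mem_singleton, ← he]
      simp only [mem_filter, mem_univ, true_and]
      exact and_comm
    exact ⟨e, ((hmem e).2 rfl).1, ((hmem e).2 rfl).2, fun e' a b => (hmem e').1 ⟨a, b⟩⟩
  choose g gF gI gU using hg
  have gτ : ∀ v, g (oth s t (g v) v) = g v := fun v => (gU _ _ (gF v) (inc_oth (gI v))).symm
  have τinv : Function.Involutive (fun v => oth s t (g v) v) := by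
    intro v
    change oth s t (g (oth s t (g v) v)) (oth s t (g v) v) = v
    rw [gτ v]
    exact oth_oth hl (gI v)
  let τ : Equiv.Perm (Fin n) := τinv.toPerm
  have τdef : ∀ v, τ v = oth s t (g v) v := fun v => rfl
  have gτ' : ∀ v, g (τ v) = g v := gτ
  have ττ : ∀ v, τ (τ v) = v := τinv
  have τne : ∀ v, τ v ≠ v := fun v => oth_ne hl (gI v)
  -- ends
  have ends : ∀ (X : Finset (Fin n)) (e : Fin m) (v : Fin n), Inc s t e v →
      ((s e ∈ X ↔ t e ∈ X) ↔ (v ∈ X ↔ oth s t e v ∈ X)) := by
    intro X e v hI
    unfold oth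
    split_ifs with h
    · rw [h]
    · have ht : t e = v := by rcases hI with h' | h'; exact absurd h' h; exact h'
      rw [ht]
      exact iff_comm
  have closed : ∀ X : Finset (Fin n), (∀ v, v ∈ X ↔ σ v ∈ X) → ∀ e ∈ F, s e ∈ X ↔ t e ∈ X := by
    intro X hX e he
    obtain ⟨v, rfl⟩ := fsurj e he
    exact (ends X (f v) v (fI v)).2 (hX v)
  have hσA : ∀ v, σ v ∈ A ↔ v ∈ A := fun v => ((ends A (f v) v (fI v)).1 (hA _ (fF v))).symm
  have cyc : ∀ (B : Finset (Fin n)), (∀ v, σ v ∈ B ↔ v ∈ B) →
      (∀ X ⊆ B, X.Nonempty → (∀ e ∈ F, s e ∈ X ↔ t e ∈ X) → X = B) →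
      ∀ x ∈ B, ∀ y ∈ B, σ.SameCycle x y := by
    intro B hB hconn x hx y hy
    have := hconn (B.filter (fun z => σ.SameCycle x z)) (filter_subset _ _)
      ⟨x, mem_filter.2 ⟨hx, Equiv.Perm.SameCycle.refl _ _⟩⟩ (closed _ (by
        intro v
        simp only [mem_filter]
        rw [hB v, Equiv.Perm.sameCycle_apply_right]))
    rw [← this] at hy
    exact (mem_filter.1 hy).2
  have hcore := core n σ τ ττ τne A hσA (cyc A hσA h1) (fun x hx y hy =>
    cyc Aᶜ (fun v => by rw [mem_compl, mem_compl, hσA v]) h2 x (mem_compl.2 hx) y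
      (mem_compl.2 hy)) (by
      rw [← hr]
      congr 1
      apply card_bij (fun v _ => g v)
      · intro v hv
        simp only [mem_filter, mem_univ, true_and] at hv ⊢
        rw [ends A (g v) v (gI v)]
        intro h
        exact hv.2 (h.1 hv.1)
      · intro u hu v hv huv
        simp only [mem_filter, mem_univ, true_and] at hu hv
        have h3 : Inc s t (g v) u := huv ▸ gI u
        rcases (inc_iff (gI v)).1 h3 with h4 | h4
        · exact h4
        · exfalso
          apply hv.2
          rw [τdef, ← h4]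
          exact hu.1
      · intro e he
        simp only [mem_filter, mem_univ, true_and] at he
        have heF : e ∉ F := fun h => he (hA e h)
        by_cases hs : s e ∈ A
        · have ht : t e ∉ A := fun h => he ⟨fun _ => h, fun _ => hs⟩
          have hge : e = g (s e) := gU (s e) e heF (Or.inl rfl)
          refine ⟨s e, ?_, hge.symm⟩
          simp only [mem_filter, mem_univ, true_and]
          refine ⟨hs, ?_⟩
          rw [τdef, ← hge]
          unfold oth
          rw [if_pos rfl]
          exact ht
        · have ht : t e ∈ A := by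
            by_contra h
            exact he ⟨fun h' => absurd h' hs, fun h' => absurd h' h⟩
          have hge : e = g (t e) := gU (t e) e heF (Or.inr rfl)
          refine ⟨t e, ?_, hge.symm⟩
          simp only [mem_filter, mem_univ, true_and]
          refine ⟨ht, ?_⟩
          rw [τdef, ← hge]
          unfold oth
          rw [if_neg (hl e)]
          exact hs)
  obtain ⟨c, hcol⟩ := hcore
  -- the matchings
  let M : Fin 4 → Finset (Fin m) := fun i => univ.filter (fun e =>
    (∃ v, f v = e ∧ c v = i) ∨ (e ∉ F ∧ c (s e) ≠ i ∧ c (σ⁻¹ (s e)) ≠ i))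
  have Mf : ∀ i v, f v ∈ M i ↔ c v = i := by
    intro i v
    simp only [M, mem_filter, mem_univ, true_and]
    constructor
    · rintro (⟨u, hu, hcu⟩ | ⟨h, _⟩)
      · rw [← finj hu]; exact hcu
      · exact absurd (fF v) h
    · intro h
      exact Or.inl ⟨v, rfl, h⟩
  have Mn : ∀ i e, e ∉ F → (e ∈ M i ↔ (c (s e) ≠ i ∧ c (σ⁻¹ (s e)) ≠ i)) := by
    intro i e he
    simp only [M, mem_filter, mem_univ, true_and]
    constructor
    · rintro (⟨u, hu, _⟩ | ⟨_, h⟩)
      · exact absurd (hu ▸ fF u) he
      · exact h
    · intro h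
      exact Or.inr ⟨he, h⟩
  have Mg : ∀ i v, g v ∈ M i ↔ (c v ≠ i ∧ c (σ⁻¹ v) ≠ i) := by
    intro i v
    rw [Mn i (g v) (gF v)]
    have h3 : s (g v) = v ∨ s (g v) = τ v := (inc_iff (gI v)).1 (Or.inl rfl)
    rcases h3 with h3 | h3
    · rw [h3]
    · rw [h3]
      rcases (hcol v).2 with ⟨h4, h5⟩ | ⟨h4, h5⟩
      · rw [← h4, ← h5]
      · rw [← h4, ← h5]
        exact and_comm
  refine ⟨M, ?_, ?_, ?_⟩
  · intro i v
    -- the three edges at v
    have hFv : ∀ e ∈ F, Inc s t e v → e = f v ∨ e = f (σ⁻¹ v) := by
      intro e he hi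
      obtain ⟨u, rfl⟩ := fsurj e he
      rcases (inc_iff (fI u)).1 hi with h3 | h3
      · left; rw [h3]
      · right
        have h4 : σ u = v := by rw [σdef]; exact h3.symm
        rw [← h4]
        simp
    have hIp : Inc s t (f (σ⁻¹ v)) v := by
      have h3 : Inc s t (f (σ⁻¹ v)) (σ (σ⁻¹ v)) := inc_oth (fI (σ⁻¹ v))
      simpa using h3
    have hne := (hcol v).1
    have goal : ∃ e0, ∀ e, (e ∈ M i ∧ Inc s t e v) ↔ e = e0 := by
      by_cases ha : c v = i
      · refine ⟨f v, fun e => ⟨fun ⟨he, hi⟩ => ?_, ?_⟩⟩
        · by_cases heF : e ∈ F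
          · rcases hFv e heF hi with h3 | h3
            · exact h3
            · rw [h3, Mf] at he
              exact absurd (he.trans ha.symm) hne
          · rw [gU v e heF hi, Mg] at he
            exact absurd ha he.1
        · rintro rfl
          exact ⟨(Mf i v).2 ha, fI v⟩
      · by_cases hb : c (σ⁻¹ v) = i
        · refine ⟨f (σ⁻¹ v), fun e => ⟨fun ⟨he, hi⟩ => ?_, ?_⟩⟩
          · by_cases heF : e ∈ F
            · rcases hFv e heF hi with h3 | h3
              · rw [h3, Mf] at he
                exact absurd he ha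
              · exact h3
            · rw [gU v e heF hi, Mg] at he
              exact absurd hb he.2
          · rintro rfl
            exact ⟨(Mf i _).2 hb, hIp⟩
        · refine ⟨g v, fun e => ⟨fun ⟨he, hi⟩ => ?_, ?_⟩⟩
          · by_cases heF : e ∈ F
            · rcases hFv e heF hi with h3 | h3
              · rw [h3, Mf] at he
                exact absurd he ha
              · rw [h3, Mf] at he
                exact absurd he hb
            · exact gU v e heF hi
          · rintro rfl
            exact ⟨(Mg i v).2 ⟨ha, hb⟩, gI v⟩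
    obtain ⟨e0, he0⟩ := goal
    rw [card_eq_one]
    refine ⟨e0, ?_⟩
    ext e
    rw [mem_filter, mem_singleton]
    exact he0 e
  · intro e he
    obtain ⟨v, rfl⟩ := fsurj e he
    rw [card_eq_one]
    refine ⟨c v, ?_⟩
    ext i
    rw [mem_filter, mem_singleton, Mf]
    simp only [mem_univ, true_and]
    exact eq_comm
  · intro e he
    rw [← two_missing (c (s e)) (c (σ⁻¹ (s e))) (fun h => (hcol (s e)).1 h.symm)]
    exact congrArg card (filter_congr (fun i _ => Mn i e he))

end Pool.Agent.Lib.MP_239067_co.TwoCirc
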